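import Pool.Agent.W528.Odd.Stms

/-!
# The conjugates of an operator of rank prime to the dimension act irreducibly
-/

set_option autoImplicit false
set_option linter.unusedSectionVars false

namespace Pool.Agent.W261.OT.Comm

open Module Pool.Agent.W528.Odd

section

variable {K : Type} [Field K] {V : Type} [AddCommGroup V] [Module K V] {G : Type} [Group G]

/-- algebra generated by the conjugates -/
def Alg (r : Representation K G V) (N : Module.End K V) : Subalgebra K (Module.End K V) :=
  Algebra.adjoin K (Set.range fun g => r g * N * r g⁻¹)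

variable (r : Representation K G V) (N : Module.End K V)

theorem rr (g : G) : r g * r g⁻¹ = 1 := by rw [← map_mul, mul_inv_cancel, map_one]

theorem rr' (g : G) : r g⁻¹ * r g = 1 := by rw [← map_mul, inv_mul_cancel, map_one]

theorem rv (g : G) (v : V) : r g (r g⁻¹ v) = v := congrArg (fun f : Module.End K V => f v) (rr r g)

theorem rv' (g : G) (v : V) : r g⁻¹ (r g v) = v :=
  congrArg (fun f : Module.End K V => f v) (rr' r g)

theorem conj_mem (g : G) (b : Module.End K V) (hb : b ∈ Alg r N) :
    r g * b * r g⁻¹ ∈ Alg r N := by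
  unfold Alg at hb ⊢
  induction hb using Algebra.adjoin_induction with
  | mem x hx =>
    obtain ⟨h, rfl⟩ := hx
    refine Algebra.subset_adjoin ⟨g * h, ?_⟩
    simp only [map_mul, mul_inv_rev, mul_assoc]
  | algebraMap c =>
    have : r g * (algebraMap K (Module.End K V)) c * r g⁻¹ = (algebraMap K (Module.End K V)) c := by
      rw [← Algebra.commutes c (r g), mul_assoc, rr, mul_one]
    rw [this]
    exact Subalgebra.algebraMap_mem _ c
  | add x y _ _ hx hy =>
    rw [mul_add, add_mul]
    exact Subalgebra.add_mem _ hx hy
  | mul x y _ _ hx hy =>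
    have : r g * (x * y) * r g⁻¹ = (r g * x * r g⁻¹) * (r g * y * r g⁻¹) := by
      have h := rr' r g
      calc r g * (x * y) * r g⁻¹ = r g * x * 1 * y * r g⁻¹ := by simp only [mul_assoc, one_mul]
        _ = r g * x * (r g⁻¹ * r g) * y * r g⁻¹ := by rw [h]
        _ = _ := by simp only [mul_assoc]
    rw [this]
    exact Subalgebra.mul_mem _ hx hy

/-- conjugate of an element of the algebra -/
def cj (g : G) (b : Alg r N) : Alg r N := ⟨r g * b * r g⁻¹, conj_mem r N g b b.2⟩

theorem cj_smul (g : G) (b : Alg r N) (v : V) : r g (b • v) = cj r N g b • r g v := by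
  change r g ((b : Module.End K V) v) = (r g * b * r g⁻¹) (r g v)
  simp only [Module.End.mul_apply]
  rw [rv']

/-- translate of a submodule -/
def tr (g : G) (T : Submodule (Alg r N) V) : Submodule (Alg r N) V where
  carrier := {v | r g⁻¹ v ∈ T}
  zero_mem' := by simp
  add_mem' := by
    intro a b ha hb
    change r g⁻¹ (a + b) ∈ T
    rw [map_add]
    exact T.add_mem ha hb
  smul_mem' := by
    intro b v hv
    change r g⁻¹ (b • v) ∈ T
    rw [cj_smul]
    exact T.smul_mem _ hv

theorem mem_tr (g : G) (T : Submodule (Alg r N) V) (v : V) : v ∈ tr r N g T ↔ r g⁻¹ v ∈ T :=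
  Iff.rfl

theorem tr_mul (g h : G) (T : Submodule (Alg r N) V) :
    tr r N (g * h) T = tr r N g (tr r N h T) := by
  ext v
  rw [mem_tr, mem_tr, mem_tr, mul_inv_rev, map_mul]
  rfl

theorem tr_one (T : Submodule (Alg r N) V) : tr r N 1 T = T := by
  ext v
  rw [mem_tr, inv_one, map_one]
  rfl

/-- the action on submodules -/
@[reducible] def act : MulAction G (Submodule (Alg r N) V) where
  smul g T := tr r N g T
  one_smul := tr_one r N
  mul_smul := tr_mul r N

/-- order automorphism -/
def oi (g : G) : Submodule (Alg r N) V ≃o Submodule (Alg r N) V where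
  toFun := tr r N g
  invFun := tr r N g⁻¹
  left_inv := by
    intro T
    rw [← tr_mul, inv_mul_cancel, tr_one]
  right_inv := by
    intro T
    rw [← tr_mul, mul_inv_cancel, tr_one]
  map_rel_iff' := by
    intro T T'
    constructor
    · intro h v hv
      have : r g v ∈ tr r N g T := by
        rw [mem_tr, rv']
        exact hv
      have h2 := h this
      change r g⁻¹ (r g v) ∈ T' at h2
      rwa [rv'] at h2
    · intro h v hv
      exact h hv

/-- conjugate of an endomorphism of the module -/
def cjEnd (g : G) (f : Module.End (Alg r N) V) : Module.End (Alg r N) V where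
  toFun v := r g⁻¹ (f (r g v))
  map_add' := by
    intro a b
    simp only [map_add]
  map_smul' := by
    intro b v
    rw [cj_smul, map_smul, cj_smul, RingHom.id_apply]
    congr 1
    apply Subtype.ext
    change r g⁻¹ * (r g * b * r g⁻¹) * r g⁻¹⁻¹ = b
    rw [inv_inv]
    calc r g⁻¹ * (r g * (b : Module.End K V) * r g⁻¹) * r g =
        (r g⁻¹ * r g) * b * (r g⁻¹ * r g) := by simp only [mul_assoc]
      _ = b := by rw [rr', one_mul, mul_one]

theorem fi_tr (g : G) (T : Submodule (Alg r N) V) (hT : T.IsFullyInvariant) :
    (tr r N g T).IsFullyInvariant := by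
  intro f v hv
  change r g⁻¹ (f v) ∈ T
  have h := hT (cjEnd r N g f) hv
  change r g⁻¹ (f (r g (r g⁻¹ v))) ∈ T at h
  rwa [rv] at h

/-- a semisimple module is isotypic if all subgroups of finite index act irreducibly -/
theorem isotypic [FiniteDimensional K V] (hr : SIrr r) [IsSemisimpleModule (Alg r N) V]
    [IsNoetherian (Alg r N) V] : IsIsotypic (Alg r N) V := by
  rw [isIsotypic_iff_isFullyInvariant_imp_bot_or_top]
  intro T hT
  let _ := act r N
  have hfin : Finite (fullyInvariantSubmodule (Alg r N) V) :=
    Finite.of_equiv _ (OrderIso.setIsotypicComponents (R := Alg r N) (M := V)).toEquiv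
  have horb : Finite (MulAction.orbit G T) := by
    have hs : MulAction.orbit G T ⊆ {S | S.IsFullyInvariant} := by
      rintro _ ⟨g, rfl⟩
      exact fi_tr r N g T hT
    have hf : Set.Finite {S : Submodule (Alg r N) V | S.IsFullyInvariant} := by
      rw [← Set.finite_coe_iff]
      exact hfin
    exact (hf.subset hs).to_subtype
  have hq : Finite (G ⧸ MulAction.stabilizer G T) :=
    Finite.of_equiv _ (MulAction.orbitEquivQuotientStabilizer G T)
  have hfi : (MulAction.stabilizer G T).FiniteIndex := Subgroup.finiteIndex_of_finite_quotient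
  rcases hr _ hfi (T.restrictScalars K) (by
    intro g hg u hu
    have h1 : tr r N g T = T := hg
    change r g u ∈ T
    rw [← h1, mem_tr, rv']
    exact hu) with h | h
  · left
    exact (Submodule.restrictScalars_eq_bot_iff _ _ _).1 h
  · right
    exact (Submodule.restrictScalars_eq_top_iff _ _ _).1 h

/-- the module is semisimple -/
theorem semis [FiniteDimensional K V] [Nontrivial V] (hr : SIrr r) [IsArtinian (Alg r N) V] :
    IsSemisimpleModule (Alg r N) V := by
  apply IsSemisimpleModule.of_sSup_simples_eq_top
  have hat : {m : Submodule (Alg r N) V | IsSimpleModule (Alg r N) m} =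
      {m : Submodule (Alg r N) V | IsAtom m} := by
    ext m
    exact isSimpleModule_iff_isAtom
  rw [hat]
  rcases hr ⊤ inferInstance ((sSup {m : Submodule (Alg r N) V | IsAtom m}).restrictScalars K) (by
    intro g _ u hu
    have h1 : (oi r N g) (sSup {m : Submodule (Alg r N) V | IsAtom m}) ≤
        sSup {m : Submodule (Alg r N) V | IsAtom m} := by
      rw [OrderIso.map_sSup]
      refine iSup₂_le fun m hm => le_sSup ?_
      exact ((oi r N g).isAtom_iff m).2 hm
    refine h1 ?_
    change r g⁻¹ (r g u) ∈ sSup {m : Submodule (Alg r N) V | IsAtom m}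
    rw [rv']
    exact hu) with h | h
  · exfalso
    have h2 := (Submodule.restrictScalars_eq_bot_iff _ _ _).1 h
    obtain ⟨a, ha⟩ := IsAtomic.exists_atom (Submodule (Alg r N) V)
    have h3 : a ≤ sSup {m : Submodule (Alg r N) V | IsAtom m} := le_sSup ha
    rw [h2, le_bot_iff] at h3
    exact ha.1 h3
  · exact (Submodule.restrictScalars_eq_top_iff _ _ _).1 h

end

/-- rank of an operator that acts diagonally -/
theorem rank_pi {K : Type} [Field K] {S : Type} [AddCommGroup S] [Module K S]
    [FiniteDimensional K S] (n : ℕ) (f : S →ₗ[K] S) (F : (Fin n → S) →ₗ[K] (Fin n → S))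
    (hF : ∀ v i, F v i = f (v i)) :
    finrank K (LinearMap.range F) = n * finrank K (LinearMap.range f) := by
  let j : (Fin n → LinearMap.range f) →ₗ[K] (Fin n → S) :=
    { toFun := fun v i => (v i : S)
      map_add' := by intro a b; rfl
      map_smul' := by intro c a; rfl }
  have hj : Function.Injective j := by
    intro a b hab
    funext i
    exact Subtype.ext (congrFun hab i)
  have hrange : LinearMap.range F = LinearMap.range j := by
    ext v
    constructor
    · rintro ⟨w, rfl⟩
      refine ⟨fun i => ⟨f (w i), w i, rfl⟩, ?_⟩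
      funext i
      exact (hF w i).symm
    · rintro ⟨w, rfl⟩
      choose u hu using fun i => (w i).2
      refine ⟨u, ?_⟩
      funext i
      rw [hF]
      exact hu i
  rw [hrange, LinearMap.finrank_range_of_inj hj, Module.finrank_pi_fintype]
  simp

theorem main : Pool.Agent.W528.Odd.Comm := by
  intro K _ _ _ V _ _ _ G _ r hr N hcop
  intro W hW
  rcases subsingleton_or_nontrivial V with hV | hV
  · left
    exact Subsingleton.elim _ _
  have hart : IsArtinian (Alg r N) V := isArtinian_of_tower K inferInstance
  have hnoe : IsNoetherian (Alg r N) V := isNoetherian_of_tower K inferInstance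
  have hss : IsSemisimpleModule (Alg r N) V := semis r N hr
  have hiso := isotypic r N hr
  obtain ⟨n, hn0, S, hS, ⟨e⟩⟩ := hiso.linearEquiv_fun
  have hSf : FiniteDimensional K S := FiniteDimensional.finiteDimensional_submodule
    (S.restrictScalars K)
  let eK : V ≃ₗ[K] (Fin n → S) := e.restrictScalars K
  -- the operator on `S`
  have hNmem : N ∈ Alg r N := by
    refine Algebra.subset_adjoin ⟨1, ?_⟩
    simp
  let b : Alg r N := ⟨N, hNmem⟩
  let f : S →ₗ[K] S :=
    { toFun := fun v => b • v
      map_add' := by intro a b; exact smul_add _ _ _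
      map_smul' := by
        intro c a
        rw [RingHom.id_apply]
        apply Subtype.ext
        change N (c • (a : V)) = c • N (a : V)
        exact map_smul _ _ _ }
  let F : (Fin n → S) →ₗ[K] (Fin n → S) := eK.toLinearMap ∘ₗ N ∘ₗ eK.symm.toLinearMap
  have hF : ∀ v i, F v i = f (v i) := by
    intro v i
    change e (b • (e.symm v)) i = b • v i
    rw [map_smul, LinearEquiv.apply_symm_apply]
    rfl
  have h1 := rank_pi (K := K) (S := S) n f F hF
  have h2 : finrank K (LinearMap.range F) = finrank K (LinearMap.range N) := by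
    have h3 : LinearMap.range F = (LinearMap.range N).map eK.toLinearMap := by
      change LinearMap.range (eK.toLinearMap ∘ₗ N ∘ₗ eK.symm.toLinearMap) = _
      rw [LinearMap.range_comp, LinearMap.range_comp_of_range_eq_top]
      exact LinearEquiv.range _
    rw [h3]
    exact LinearEquiv.finrank_map_eq eK _
  have h4 : finrank K V = n * finrank K S := by
    rw [eK.finrank_eq, Module.finrank_pi_fintype]
    simp
  have h5 : n = 1 := by
    have d1 : n ∣ finrank K (LinearMap.range N) := ⟨_, h2.symm.trans h1⟩
    have d2 : n ∣ finrank K V := ⟨_, h4⟩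
    exact Nat.eq_one_of_dvd_coprimes hcop d1 d2
  subst h5
  let e1 : (Fin 1 → S) ≃ₗ[Alg r N] S := LinearEquiv.funUnique (Fin 1) (Alg r N) S
  let e2 : V ≃ₗ[Alg r N] S := e.trans e1
  have hsimp : IsSimpleModule (Alg r N) V :=
    IsSimpleModule.congr (R := Alg r N) (M := V) (N := S) e2
  -- the stable subspace as a submodule
  have hst : ∀ b ∈ Alg r N, ∀ v ∈ W, b v ∈ W := by
    intro b hb
    unfold Alg at hb
    induction hb using Algebra.adjoin_induction with
    | mem x hx =>
      obtain ⟨g, rfl⟩ := hx
      intro v hv
      exact hW g v hv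
    | algebraMap c =>
      intro v hv
      change c • v ∈ W
      exact W.smul_mem c hv
    | add x y _ _ hx hy =>
      intro v hv
      exact W.add_mem (hx v hv) (hy v hv)
    | mul x y _ _ hx hy =>
      intro v hv
      exact hx _ (hy v hv)
  let W' : Submodule (Alg r N) V :=
    { carrier := W
      zero_mem' := W.zero_mem
      add_mem' := fun ha hb => W.add_mem ha hb
      smul_mem' := fun b v hv => hst b b.2 v hv }
  have hW' : ∀ v, v ∈ W' ↔ v ∈ W := fun v => Iff.rfl
  rcases eq_bot_or_eq_top W' with h | h
  · left
    ext v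
    rw [← hW', h]
    rfl
  · right
    ext v
    rw [← hW', h]
    simp

end Pool.Agent.W261.OT.Comm
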